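import Pool.Agent.N229.PG.Stm

/-! Project PG (helper229), leaf N: the numbers `N m` (helper250). -/

namespace PG

open Filter Topology

theorem n_sg (β : ℝ) (m : ℕ) : bb m ^ β = ((1 / 2 : ℝ) ^ β) ^ (m + 1) := by
  unfold bb
  rw [Real.rpow_pow_comm (by norm_num)]

theorem n_bound (r : ℝ) (h0 : 0 < r) (h1 : r < 1) (n : ℕ) :
    (n : ℝ) * r ^ n ≤ r / (1 - r) := by
  have h2 : 0 < 1 - r := by linarith
  have h3 : 0 < (1 - r) / r := div_pos h2 h0
  have h4 := one_add_mul_le_pow (a := (1 - r) / r) (by linarith) n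
  have h5 : 1 + (1 - r) / r = 1 / r := by
    field_simp
    ring
  rw [h5, div_pow, one_pow, le_div_iff₀ (pow_pos h0 n)] at h4
  rw [le_div_iff₀ h2]
  have h6 : (1 + (n : ℝ) * ((1 - r) / r)) * r ^ n * r = r ^ n * r + (n : ℝ) * r ^ n * (1 - r) := by
    field_simp
  have h7 : 0 < r ^ n * r := mul_pos (pow_pos h0 n) h0
  have h8 : (1 + (n : ℝ) * ((1 - r) / r)) * r ^ n * r ≤ 1 * r := mul_le_mul_of_nonneg_right h4 h0.le
  linarith

theorem leaf_N : StmN := by
  intro α hα hα1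
  obtain ⟨β, hβ⟩ : ∃ β : ℝ, β = (1 - α) / α := ⟨_, rfl⟩
  have hβ0 : 0 < β := by rw [hβ]; exact div_pos (by linarith) hα
  obtain ⟨r, hr⟩ : ∃ r : ℝ, r = (1 / 2 : ℝ) ^ β := ⟨_, rfl⟩
  have hr0 : 0 < r := by rw [hr]; positivity
  have hr1 : r < 1 := by rw [hr]; exact Real.rpow_lt_one (by norm_num) (by norm_num) hβ0
  have hsg : ∀ m, bb m ^ β = r ^ (m + 1) := fun m => by rw [hr]; exact n_sg β m
  have hrp : ∀ m : ℕ, 0 < r ^ (m + 1) := fun m => pow_pos hr0 _
  have hrp1 : ∀ m : ℕ, r ^ (m + 1) ≤ 1 := fun m => pow_le_one₀ hr0.le hr1.le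
  have hm1 : ∀ m : ℕ, (1 : ℝ) ≤ (m : ℝ) + 1 := fun m => by
    have : (0 : ℝ) ≤ m := Nat.cast_nonneg m
    linarith
  have hα' : 1 < 1 / α := by rw [lt_div_iff₀ hα]; linarith
  obtain ⟨nn, hnn⟩ : ∃ nn : ℕ → ℝ, nn = fun m : ℕ => ((m : ℝ) + 1) ^ (-(1 / α)) := ⟨_, rfl⟩
  have hn0 : ∀ m, 0 < nn m := fun m => by
    rw [hnn]
    have := hm1 m
    exact Real.rpow_pos_of_pos (by linarith) _
  have hn1 : ∀ m : ℕ, nn m * ((m : ℝ) + 1) ≤ 1 := by
    intro m
    have h1 : nn m ≤ ((m : ℝ) + 1) ^ (-1 : ℝ) := by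
      rw [hnn]
      exact Real.rpow_le_rpow_of_exponent_le (hm1 m) (by linarith)
    have h2 : 0 < (m : ℝ) + 1 := by linarith [hm1 m]
    rw [Real.rpow_neg_one] at h1
    calc nn m * ((m : ℝ) + 1) ≤ ((m : ℝ) + 1)⁻¹ * ((m : ℝ) + 1) :=
          mul_le_mul_of_nonneg_right h1 h2.le
      _ = 1 := inv_mul_cancel₀ h2.ne'
  have hn1' : ∀ m : ℕ, nn m ≤ 1 := by
    intro m
    have := hn1 m
    have := hm1 m
    have := hn0 m
    nlinarith
  obtain ⟨N, hN⟩ : ∃ N : ℕ → ℕ, N = fun m => ⌊nn m / r ^ (m + 1)⌋₊ + 1 := ⟨_, rfl⟩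
  have hNl : ∀ m, nn m / r ^ (m + 1) ≤ (N m : ℝ) := by
    intro m
    rw [hN]
    push_cast
    exact (Nat.lt_floor_add_one _).le
  have hNu : ∀ m, (N m : ℝ) ≤ nn m / r ^ (m + 1) + 1 := by
    intro m
    rw [hN]
    push_cast
    have := Nat.floor_le (div_nonneg (hn0 m).le (hrp m).le)
    linarith
  have hNs : ∀ m, (N m : ℝ) * r ^ (m + 1) ≤ nn m + r ^ (m + 1) := by
    intro m
    calc (N m : ℝ) * r ^ (m + 1) ≤ (nn m / r ^ (m + 1) + 1) * r ^ (m + 1) :=
          mul_le_mul_of_nonneg_right (hNu m) (hrp m).le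
      _ = nn m + r ^ (m + 1) := by
          rw [add_mul, div_mul_cancel₀ _ (hrp m).ne', one_mul]
  have hN1 : ∀ m, 1 ≤ N m := fun m => by rw [hN]; exact Nat.le_add_left 1 _
  rw [← hβ]
  refine ⟨N, (2 + -Real.log r) * (1 + r / (1 - r)), hN1, ?_, ?_, ?_⟩
  · refine Summable.of_nonneg_of_le (fun m => ?_) (fun m => ?_) (f := fun m => nn m + r ^ (m + 1)) ?_
    · rw [hsg]
      exact mul_nonneg (Nat.cast_nonneg _) (hrp m).le
    · rw [hsg]
      exact hNs m
    · refine Summable.add ?_ ?_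
      · have h1 : Summable fun n : ℕ => (n : ℝ) ^ (-(1 / α)) :=
          Real.summable_nat_rpow.2 (by linarith)
        have h2 := (summable_nat_add_iff 1).2 h1
        rw [hnn]
        refine h2.congr fun m => ?_
        push_cast
        rfl
      · exact (summable_nat_add_iff 1).2 (summable_geometric_of_lt_one hr0.le hr1)
  · intro m
    rw [hsg]
    have hNp : (0 : ℝ) < N m := by exact_mod_cast hN1 m
    have h1 : (N m : ℝ) ≤ 2 / r ^ (m + 1) := by
      refine (hNu m).trans ?_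
      rw [le_div_iff₀ (hrp m), add_mul, div_mul_cancel₀ _ (hrp m).ne']
      have := hn1' m
      have := hrp1 m
      linarith
    have h2 : Real.log (N m) ≤ 1 + ((m : ℝ) + 1) * (-Real.log r) := by
      have h3 := Real.log_le_log hNp h1
      rw [Real.log_div (by norm_num) (hrp m).ne', Real.log_pow] at h3
      have h4 : Real.log 2 ≤ 1 := by linarith [Real.log_two_lt_d9]
      push_cast at h3
      linarith
    have hl : 0 < -Real.log r := by linarith [Real.log_neg hr0 hr1]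
    have h5 : 1 + Real.log (N m) ≤ (2 + -Real.log r) * ((m : ℝ) + 1) := by
      have := hm1 m
      nlinarith
    have h6 : 0 ≤ 1 + Real.log (N m) := by
      have : 0 ≤ Real.log (N m) := Real.log_nonneg (by exact_mod_cast hN1 m)
      linarith
    have h7 := n_bound r hr0 hr1 (m + 1)
    push_cast at h7
    calc (N m : ℝ) * r ^ (m + 1) * (1 + Real.log (N m))
        ≤ (nn m + r ^ (m + 1)) * ((2 + -Real.log r) * ((m : ℝ) + 1)) :=
          mul_le_mul (hNs m) h5 h6 (by have := hn0 m; have := hrp m; positivity)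
      _ = (2 + -Real.log r) * (nn m * ((m : ℝ) + 1) + ((m : ℝ) + 1) * r ^ (m + 1)) := by ring
      _ ≤ (2 + -Real.log r) * (1 + r / (1 - r)) := by
          refine mul_le_mul_of_nonneg_left ?_ (by linarith)
          have := hn1 m
          linarith
  · intro hs
    have hlow : ∀ m : ℕ, 1 / ((m : ℝ) + 1) ≤ bb m * ((N m : ℝ) / bb m) ^ α := by
      intro m
      have hb : 0 < bb m := by unfold bb; positivity
      have hmp : 0 < (m : ℝ) + 1 := by linarith [hm1 m]
      have e1 : nn m / r ^ (m + 1) / bb m = ((m : ℝ) + 1) ^ (-(1 / α)) / bb m ^ (1 / α) := by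
        have e2 : bb m ^ (1 / α) = r ^ (m + 1) * bb m := by
          rw [← hsg, hβ]
          nth_rewrite 3 [← Real.rpow_one (bb m)]
          rw [← Real.rpow_add hb]
          congr 1
          field_simp
          ring
        rw [e2, hnn, div_div]
      have h1 : nn m / r ^ (m + 1) / bb m ≤ (N m : ℝ) / bb m :=
        div_le_div_of_nonneg_right (hNl m) hb.le
      have h2 : (nn m / r ^ (m + 1) / bb m) ^ α ≤ ((N m : ℝ) / bb m) ^ α :=
        Real.rpow_le_rpow (by have := hn0 m; have := hrp m; positivity) h1 hα.le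
      have h3 : (nn m / r ^ (m + 1) / bb m) ^ α = ((m : ℝ) + 1)⁻¹ / bb m := by
        rw [e1, Real.div_rpow (by positivity) (by positivity), ← Real.rpow_mul hmp.le,
          ← Real.rpow_mul hb.le]
        have e3 : -(1 / α) * α = -1 := by field_simp
        have e4 : 1 / α * α = 1 := by field_simp
        rw [e3, e4, Real.rpow_one, Real.rpow_neg_one]
      rw [h3] at h2
      calc 1 / ((m : ℝ) + 1) = bb m * (((m : ℝ) + 1)⁻¹ / bb m) := by
            field_simp
        _ ≤ bb m * ((N m : ℝ) / bb m) ^ α := mul_le_mul_of_nonneg_left h2 hb.le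
    have h4 : Summable fun m : ℕ => 1 / ((m : ℝ) + 1) :=
      Summable.of_nonneg_of_le (fun m => by positivity) hlow hs
    have h5 : Summable fun n : ℕ => 1 / (n : ℝ) := by
      rw [← summable_nat_add_iff 1]
      refine h4.congr fun m => ?_
      push_cast
      rfl
    exact Real.not_summable_one_div_natCast h5

end PG
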